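import Pool.Agent.H49.CA.Bas
import Pool.Agent.H16.SF.LED

/-! SE: `δ` has no surjection from `L_γ` in the collapsed levels, and has one above them. -/

set_option linter.unusedVariables false

open Ordinal Order Set
open scoped ZFSet

namespace Pool.Agent.H49.CA

open SF CAA

/-- the finite set of the first `n` values -/
noncomputable def Tn : ℕ → (ℕ → V) → V
  | 0, _ => ∅
  | n + 1, v => insert (v n) (Tn n v)

theorem tm_Tn (n : ℕ) (F : ℕ → (V → Prop) → (ℕ → V) → V) (hF : ∀ j, Tm ZFm (F j)) :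
    Tm ZFm (fun M v => Tn n fun j => F j M v) := by
  induction n with
  | zero => exact Tm.empty
  | succ n ih => exact Tm.ins (hF n) ih

theorem mem_Tn {n : ℕ} {v : ℕ → V} {x : V} : x ∈ Tn n v ↔ ∃ j < n, v j = x := by
  induction n with
  | zero =>
    constructor
    · intro h
      exact absurd h (ZFSet.notMem_empty x)
    · rintro ⟨j, hj, -⟩
      exact absurd hj (Nat.not_lt_zero j)
  | succ n ih =>
    show x ∈ insert (v n) (Tn n v) ↔ _
    rw [ZFSet.mem_insert_iff, ih]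
    constructor
    · rintro (h | ⟨j, hj, h⟩)
      · exact ⟨n, Nat.lt_succ_self n, h.symm⟩
      · exact ⟨j, Nat.lt_succ_of_lt hj, h⟩
    · rintro ⟨j, hj, h⟩
      rcases Nat.lt_succ_iff_lt_or_eq.1 hj with h1 | h1
      · exact Or.inr ⟨j, h1, h⟩
      · rw [h1] at h
        exact Or.inl h.symm

theorem mem_nS {n : ℕ} {x : V} : x ∈ nS n ↔ ∃ j < n, x = nS j := by
  constructor
  · intro h
    obtain ⟨a, ha, rfl⟩ := Ordinal.mem_toZFSet_iff.1 h
    obtain ⟨j, rfl⟩ := Ordinal.lt_omega0.1 (ha.trans (Ordinal.natCast_lt_omega0 n))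
    exact ⟨j, by exact_mod_cast ha, rfl⟩
  · rintro ⟨j, hj, rfl⟩
    exact nS_mem_nS.2 hj

/-- the hulls as functions of finitely many arguments -/
noncomputable def Xv (g m C : V) (n : ℕ) (x : ℕ → V) : V :=
  Dcl (LAS ∅ (x n)) (LAS ∅ g ∪ {g, m, C} ∪ Tn n x)

theorem Xv_congr {g m C : V} {n : ℕ} {x y : ℕ → V} (h : ∀ j ≤ n, x j = y j) :
    Xv g m C n x = Xv g m C n y := by
  have h1 : Tn n x = Tn n y := by
    ext z
    rw [mem_Tn, mem_Tn]
    refine exists_congr fun j => and_congr_right fun hj => ?_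
    rw [h j hj.le]
  unfold Xv
  rw [h n le_rfl, h1]

theorem Xh_eq (g m C s : V) (n : ℕ) :
    Xh g m C s (nS n) = Xv g m C n fun j => app s (nS j) := by
  have h1 : (imS (nS n) fun l => app s l) = Tn n fun j => app s (nS j) := by
    ext z
    rw [mem_imS, mem_Tn]
    constructor
    · rintro ⟨l, hl, h⟩
      obtain ⟨j, hj, rfl⟩ := mem_nS.1 hl
      exact ⟨j, hj, h⟩
    · rintro ⟨j, hj, h⟩
      exact ⟨nS j, nS_mem_nS.2 hj, h⟩
  unfold Xh Xv
  rw [h1]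

/-- the suprema -/
noncomputable def Ph (n : ℕ) (_ : V → Prop) (v : ℕ → V) : V :=
  ⋃₀ (imS (Xv (v 0) (v 1) (v 2) n (fun j => v (j + 3)) ∩ v 1) fun x => insert x x) 

theorem tm_Ph (hDB : T_DB) (n : ℕ) : Tm ZFm (Ph n) := by
  refine Tm.iUn (f := fun _ v => Xv (v 0) (v 1) (v 2) n (fun j => v (j + 3)) ∩ v 1)
    (g := fun _ w => insert (w 0) (w 0)) (Tm.inter ?_ (Tm.var 1)) (Tm.ins (Tm.var 0) (Tm.var 0))
  refine Tm.at2 (F := fun _ x y => Dcl x y) hDB (Tm.LAS Tm.empty (Tm.var (n + 3))) ?_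
  exact Tm.union (Tm.union (Tm.LAS Tm.empty (Tm.var 0))
    (Tm.ins (Tm.var 0) (Tm.ins (Tm.var 1) (Tm.sing (Tm.var 2)))))
    (tm_Tn n (fun j _ v => v (j + 3)) fun j => Tm.var _)

/-- the suprema, as a function of the sequence -/
noncomputable def Ps (_ : V → Prop) (w : ℕ → V) : V :=
  ⋃₀ (imS (Xh (w 1) (w 2) (w 3) (w 4) (w 0) ∩ w 2) fun x => insert x x)

theorem tm_Ps (hDB : T_DB) : Tm ZFm Ps := by
  refine Tm.iUn (f := fun _ w => Xh (w 1) (w 2) (w 3) (w 4) (w 0) ∩ w 2)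
    (g := fun _ w => insert (w 0) (w 0)) (Tm.inter ?_ (Tm.var 2)) (Tm.ins (Tm.var 0) (Tm.var 0))
  refine Tm.at2 (F := fun _ x y => Dcl x y) hDB
    (Tm.LAS Tm.empty (Tm.app (Tm.var 4) (Tm.var 0))) ?_
  exact Tm.union (Tm.union (Tm.LAS Tm.empty (Tm.var 1))
    (Tm.ins (Tm.var 1) (Tm.ins (Tm.var 2) (Tm.sing (Tm.var 3)))))
    (Tm.image (f := fun _ w => w 0) (g := fun _ u => app (u 5) (u 0)) (Tm.var 0)
      (Tm.app (Tm.var 5) (Tm.var 0)))

theorem elem_inj {N' N f u w : V} (h : IsElem N' N f) (hu : u ∈ N') (hw : w ∈ N')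
    (he : app f u = app f w) : u = w := by
  have h1 := h.el (.eq 0 1) (cons u fun _ => w) (In.cons (M := (· ∈ N')) (fun _ => hw) hu)
  exact h1.2 he

theorem rg_resS (a : V) (F : V → V) : rg (resS a F) = imS a F := by
  ext y
  rw [mem_rg, mem_imS]
  constructor
  · rintro ⟨x, hx⟩
    obtain ⟨h1, h2⟩ := pair_mem_resS.1 hx
    exact ⟨x, h1, h2.symm⟩
  · rintro ⟨x, hx, rfl⟩
    exact ⟨x, pair_mem_resS.2 ⟨hx, rfl⟩⟩

theorem pair_LA {β μ : Ordinal.{0}} (hμ : IsSuccLimit μ) (hβ : β < μ) {x y : V}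
    (hx : x ∈ (LA ∅ β : V)) (hy : y ∈ (LA ∅ β : V)) : ZFSet.pair x y ∈ (LA ∅ μ : V) := by
  have h1 : ({x} : V) ∈ (LA ∅ (succ β) : V) := by
    have := pair_mem_Lh (A := ∅) ZFSet.isTransitive_empty (lt_succ β) hx hx
    rwa [ZFSet.pair_eq_singleton] at this
  have h2 : ({x, y} : V) ∈ (LA ∅ (succ β) : V) :=
    pair_mem_Lh (A := ∅) ZFSet.isTransitive_empty (lt_succ β) hx hy
  unfold ZFSet.pair
  exact pair_mem_Lh (A := ∅) ZFSet.isTransitive_empty (hμ.succ_lt hβ) h1 h2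

end Pool.Agent.H49.CA

namespace CAA

open SF Pool.Agent.H49.CA

theorem pf_SE (hSB : T_SB) (hSD : T_SD) (hDG : T_DG) (hDF : T_DF) (hGH : T_GH) (hDB : T_DB) :
    T_SE := by
  intro D hD i C t s X δ hL
  obtain ⟨tb, f, hCz, hS⟩ := hSD D hD i C t s X δ hL
  have zb : ∀ n, ZFm (· ∈ LA ∅ (tb n)) := fun n => (hCz n).1
  have zt : ∀ n, ZFm (· ∈ LA ∅ (t n)) := fun n => (hL.cz n).1
  have hmono : StrictMono tb := strictMono_nat_of_lt_succ fun n => (hCz n).2.1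
  have hδ : ∀ n, δ < tb n := fun n => (hS n).2.1
  have hel : ∀ n, IsElem (LA ∅ (tb n)) (LA ∅ (t n)) (f n) := fun n => (hS n).2.2.1
  have hfix : ∀ n, ∀ ξ < δ, app (f n) ξ.toZFSet = ξ.toZFSet := fun n => (hS n).2.2.2.2.2.1
  have hfδ : ∀ n, app (f n) δ.toZFSet = (D.μ i).toZFSet := fun n => (hS n).2.2.2.2.2.2.1
  have hCδ : ∀ n, C ∩ δ.toZFSet ∈ (LA ∅ (tb n) : V) := fun n => (hS n).2.2.2.2.2.2.2.1
  have hfC : ∀ n, app (f n) (C ∩ δ.toZFSet) = C := fun n => (hS n).2.2.2.2.2.2.2.2.1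
  have hft : ∀ n, ∀ m < n, app (f n) (tb m).toZFSet = (t m).toZFSet :=
    fun n => (hS n).2.2.2.2.2.2.2.2.2
  have hγδ := hL.γδ
  have hi := hL.iκ
  have hκθ : D.κ < D.θ := hD.grd.κχ.trans hD.grd.χθ
  have hγb : ∀ n, (D.γ i).toZFSet ∈ (LA ∅ (tb n) : V) := fun n => ord_LA (hγδ.trans (hδ n))
  have hLγb : ∀ n, (LA ∅ (D.γ i) : V) ∈ (LA ∅ (tb n) : V) := fun n => LA_mem (hγδ.trans (hδ n))
  have hf0 : ∀ n, app (f n) ∅ = ∅ := fun n =>
    pf_LET ZFm (fun _ _ => ∅) Tm.empty _ _ _ (hel n) (zb n) (zt n) (fun _ => (D.γ i).toZFSet)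
      fun _ => hγb n
  have hfL : ∀ n, app (f n) (LA ∅ (D.γ i)) = LA ∅ (D.γ i) := by
    intro n
    have h1 := pf_LET ZFm (fun _ v => LAS ∅ (v 0)) (Tm.LAS Tm.empty (Tm.var 0)) _ _ _ (hel n)
      (zb n) (zt n) (fun _ => (D.γ i).toZFSet) fun _ => hγb n
    simp only [hfix n _ hγδ, LAS_ord] at h1
    exact h1
  refine ⟨tb, hCz, fun n => ⟨hδ n, (hS n).1.trans_lt (hL.tκ n), ?_⟩, ?_⟩
  · intro h hh hon
    have h1 := (pf_LED ZFm (fun _ v => Onto (v 0) (v 1) (v 2))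
      (Dfb.onto (Tm.var 0) (Tm.var 1) (Tm.var 2)) _ _ _ (hel n) (zb n) (zt n)
      (cons h (cons (LA ∅ (D.γ i)) fun _ => δ.toZFSet))
      (In.cons (M := (· ∈ LA ∅ (tb n))) (In.cons (M := (· ∈ LA ∅ (tb n)))
        (fun _ => ord_LA (hδ n)) (hLγb n)) hh)).1 hon
    simp only [cons_zero, cons_succ, hfL, hfδ] at h1
    refine hD.sz.ns i hi (Or.inr ⟨_, ?_, h1⟩)
    exact LA_mono ((hL.tκ n).trans hκθ).le (app_mem (hel n).func hh)
  · intro z hz htz hNS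
    -- the suprema
    have key : ∀ n, ∃ ε : Ordinal.{0}, ε < δ ∧
        (∀ ξ < D.μ i, ξ.toZFSet ∈ Xh (D.γ i).toZFSet (D.μ i).toZFSet C s (nS n) → ξ < ε) ∧
        Ph n (fun _ => True) (cons (D.γ i).toZFSet (cons δ.toZFSet (cons (C ∩ δ.toZFSet)
          fun j => (tb j).toZFSet))) = ε.toZFSet := by
      intro n
      obtain ⟨η, hη, hb⟩ := hL.bd n
      obtain ⟨ε, hεη, hE, hε1, -⟩ := sup_ord
        (Xh (D.γ i).toZFSet (D.μ i).toZFSet C s (nS n) ∩ (D.μ i).toZFSet) η (by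
          intro x hx
          obtain ⟨h1, h2⟩ := ZFSet.mem_inter.1 hx
          obtain ⟨ξ, hξ, rfl⟩ := Ordinal.mem_toZFSet_iff.1 h2
          exact Ordinal.toZFSet_mem_toZFSet_iff.2 (hb ξ hξ h1))
      have hεδ : ε < δ := hεη.trans_lt hη
      refine ⟨ε, hεδ, fun ξ hξ hx => hε1 ξ (ZFSet.mem_inter.2
        ⟨hx, Ordinal.toZFSet_mem_toZFSet_iff.2 hξ⟩), ?_⟩
      obtain ⟨vb, hvb⟩ : ∃ vb : ℕ → V, vb = cons (D.γ i).toZFSet (cons δ.toZFSet
        (cons (C ∩ δ.toZFSet) fun j => sel (j ≤ n) (tb j).toZFSet ∅)) := ⟨_, rfl⟩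
      have hvbM : ∀ j, vb j ∈ (LA ∅ (tb (n + 1)) : V) := by
        rw [hvb]
        refine In.cons (M := (· ∈ LA ∅ (tb (n + 1)))) (In.cons (M := (· ∈ LA ∅ (tb (n + 1))))
          (In.cons (M := (· ∈ LA ∅ (tb (n + 1)))) (fun j => ?_) (hCδ _)) (ord_LA (hδ _))) (hγb _)
        show sel (j ≤ n) (tb j).toZFSet ∅ ∈ (LA ∅ (tb (n + 1)) : V)
        by_cases hj : j ≤ n
        · rw [sel_pos hj]
          exact ord_LA (hmono (Nat.lt_succ_of_le hj))
        · rw [sel_neg hj]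
          exact (zb (n + 1)).mempty
      have hvt : (fun j => app (f (n + 1)) (vb j)) = cons (D.γ i).toZFSet
          (cons (D.μ i).toZFSet (cons C fun j => sel (j ≤ n) (t j).toZFSet ∅)) := by
        funext j
        rw [hvb]
        rcases j with _ | _ | _ | j
        · exact hfix _ _ hγδ
        · exact hfδ _
        · exact hfC _
        · show app (f (n + 1)) (sel (j ≤ n) (tb j).toZFSet ∅) = sel (j ≤ n) (t j).toZFSet ∅
          by_cases hj : j ≤ n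
          · rw [sel_pos hj, sel_pos hj]
            exact hft _ _ (Nat.lt_succ_of_le hj)
          · rw [sel_neg hj, sel_neg hj]
            exact hf0 _
      have h1 := pf_LET ZFm (Ph n) (tm_Ph hDB n) _ _ _ (hel (n + 1)) (zb _) (zt _) vb hvbM
      rw [hvt] at h1
      have h2 : Ph n (· ∈ LA ∅ (t (n + 1))) (cons (D.γ i).toZFSet
          (cons (D.μ i).toZFSet (cons C fun j => sel (j ≤ n) (t j).toZFSet ∅))) =
          ε.toZFSet := by
        have h3 : Xv (D.γ i).toZFSet (D.μ i).toZFSet C n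
            (fun j => sel (j ≤ n) (t j).toZFSet ∅) =
            Xh (D.γ i).toZFSet (D.μ i).toZFSet C s (nS n) := by
          rw [Xh_eq]
          refine Xv_congr fun j hj => ?_
          rw [sel_pos hj, hL.ts]
        rw [← hE, ← h3]
        rfl
      rw [h2, ← hfix (n + 1) ε hεδ] at h1
      have h4 := elem_inj (hel (n + 1)) ((tm_Ph hDB n).1 (· ∈ LA ∅ (tb (n + 1))) (zb _) vb hvbM)
        (ord_LA (hεδ.trans (hδ _))) h1
      rw [← h4, hvb]
      have h5 : Xv (D.γ i).toZFSet δ.toZFSet (C ∩ δ.toZFSet) n (fun j => (tb j).toZFSet) =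
          Xv (D.γ i).toZFSet δ.toZFSet (C ∩ δ.toZFSet) n
            (fun j => sel (j ≤ n) (tb j).toZFSet ∅) :=
        Xv_congr fun j hj => (sel_pos hj).symm
      show (⋃₀ (imS (Xv (D.γ i).toZFSet δ.toZFSet (C ∩ δ.toZFSet) n
        (fun j => (tb j).toZFSet) ∩ δ.toZFSet) fun x => insert x x) : ZFSet) = _
      rw [h5]
      rfl
    choose ε hεδ hεX hεP using key
    obtain ⟨sb, hsbz, -, -, hsb⟩ := hSB z tb hz hCz htz
    obtain ⟨-, hzl, -⟩ := (hGH D hD).2.2 z hz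
    have hzC : ZFCm (· ∈ LA ∅ z) := (hGH D hD).2.1 z hzl hz
    obtain ⟨hGd, -, hμl, -⟩ := (hGH D hD).1 i hi
    have hδz : δ < z := (hδ 0).trans (htz 0)
    have hLz : (LA ∅ (D.γ i) : V) ∈ (LA ∅ z : V) := LA_mem (hγδ.trans hδz)
    have hCδz : C ∩ δ.toZFSet ∈ (LA ∅ z : V) := LA_mono (htz 0).le (hCδ 0)
    -- surjections onto smaller ordinals
    have hsm : ∀ ζ < δ, Sm (· ∈ LA ∅ z) (LA ∅ (D.γ i)) ζ.toZFSet := by
      intro ζ hζ
      rcases hD.sz.sm i hi ζ (hζ.trans hL.δμ) with h | ⟨g, hg, hgo⟩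
      · exact Or.inl h
      · right
        have hgμ : g ⊆ (LA ∅ (D.μ i) : V) := by
          intro q hq
          obtain ⟨x, hx, y, hy, rfl⟩ := ZFSet.mem_prod.1 (hgo.1.1 hq)
          obtain ⟨y', hy', rfl⟩ := Ordinal.mem_toZFSet_iff.1 hy
          refine pair_LA hμl (β := max (D.γ i) ζ) (max_lt (hD.sz.γμ i hi) (hζ.trans hL.δμ))
            (LA_mono (le_max_left _ _) hx) (ord_LA (hy'.trans_le (le_max_right _ _)))
        have hg0 : g ∈ (LA ∅ (t 0) : V) := hL.pw g hg hgμ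
        have h1 : Dfb ZFm (fun M v => ∃ x, M x ∧ Onto x (v 0) (v 1)) :=
          (Dfb.ex (R := fun _ v => Onto (v 0) (v 1) (v 2))
            (Dfb.onto (Tm.var 0) (Tm.var 1) (Tm.var 2))).congr fun M k v hv => Iff.rfl
        have h2 := (pf_LED ZFm _ h1 _ _ _ (hel 0) (zb 0) (zt 0)
          (cons (LA ∅ (D.γ i)) fun _ => ζ.toZFSet) (In.cons (M := (· ∈ LA ∅ (tb 0)))
            (fun _ => ord_LA (hζ.trans (hδ 0))) (hLγb 0))).2 (by
              simp only [cons_zero, cons_succ, hfL, hfix 0 ζ hζ]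
              exact ⟨g, hg0, hgo⟩)
        obtain ⟨g', hg', hgo'⟩ := h2
        exact ⟨g', LA_mono (htz 0).le hg', hgo'⟩
    -- the set of the suprema
    have hPs : ∀ n, Ps (fun _ => True) (cons (nS n) (cons (D.γ i).toZFSet (cons δ.toZFSet
        (cons (C ∩ δ.toZFSet) fun _ => sb)))) = (ε n).toZFSet := by
      intro n
      rw [← hεP n]
      have h1 : Xh (D.γ i).toZFSet δ.toZFSet (C ∩ δ.toZFSet) sb (nS n) =
          Xv (D.γ i).toZFSet δ.toZFSet (C ∩ δ.toZFSet) n (fun j => (tb j).toZFSet) := by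
        rw [Xh_eq]
        exact Xv_congr fun j hj => hsb j
      show (⋃₀ (imS (Xh (D.γ i).toZFSet δ.toZFSet (C ∩ δ.toZFSet) sb (nS n) ∩ δ.toZFSet)
        fun x => insert x x) : ZFSet) = _
      rw [h1]
      rfl
    have hvz : ∀ j, cons (D.γ i).toZFSet (cons δ.toZFSet
        (cons (C ∩ δ.toZFSet) fun _ => sb)) j ∈ (LA ∅ z : V) :=
      In.cons (M := (· ∈ LA ∅ z)) (In.cons (M := (· ∈ LA ∅ z)) (In.cons (M := (· ∈ LA ∅ z))
        (fun _ => hsbz) hCδz) (ord_LA hδz)) (ord_LA (hγδ.trans hδz))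
    obtain ⟨F, hF⟩ : ∃ F : V → V, F = fun x => Ps (fun _ => True) (cons x
      (cons (D.γ i).toZFSet (cons δ.toZFSet (cons (C ∩ δ.toZFSet) fun _ => sb)))) := ⟨_, rfl⟩
    have hFn : ∀ n, F (nS n) = (ε n).toZFSet := by
      rw [hF]
      exact hPs
    have hRz : resS om F ∈ (LA ∅ z : V) := by
      have h1 := (Tm.resS (f := fun _ _ => om) Tm.om (tm_Ps hDB)).1 (· ∈ LA ∅ z) hz _ hvz
      rw [hF]
      exact h1
    have hSz : imS om F ∈ (LA ∅ z : V) := by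
      have h1 := (Tm.rg (Tm.var 0)).1 (· ∈ LA ∅ z) hz (fun _ => resS om F) fun _ => hRz
      simp only [rg_resS] at h1
      exact h1
    obtain ⟨df1, -, -, -, -, -, df7, -⟩ := hDF (· ∈ LA ∅ z) hz _ hLz hGd
    have hsmS : Sm (· ∈ LA ∅ z) (LA ∅ (D.γ i)) (imS om F) := by
      rw [← rg_resS]
      exact df7 om _ (df1 om hGd.om) hRz (svl_resS _ _) (dm_resS _ _)
    have h1 := hDG (· ∈ LA ∅ z) hzC _ hLz hGd (imS om F) hSz hsmS (by
      intro x hx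
      obtain ⟨y, hy, rfl⟩ := mem_imS.1 hx
      obtain ⟨n, rfl⟩ := mem_om.1 hy
      rw [hFn]
      exact hsm _ (hεδ n))
    have h2 : (⋃₀ (imS om F) : ZFSet) = δ.toZFSet := by
      ext x
      rw [ZFSet.mem_sUnion]
      constructor
      · rintro ⟨_, hw, hx⟩
        obtain ⟨y, hy, rfl⟩ := mem_imS.1 hw
        obtain ⟨n, rfl⟩ := mem_om.1 hy
        rw [hFn] at hx
        obtain ⟨ξ, hξ, rfl⟩ := Ordinal.mem_toZFSet_iff.1 hx
        exact Ordinal.toZFSet_mem_toZFSet_iff.2 (hξ.trans (hεδ n))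
      · intro hx
        obtain ⟨ξ, hξ, rfl⟩ := Ordinal.mem_toZFSet_iff.1 hx
        obtain ⟨n, hn⟩ := (hL.Xe _).1 ((hL.Xμ ξ (hξ.trans hL.δμ)).2 hξ)
        refine ⟨_, mem_imS.2 ⟨nS n, nS_mem_om n, rfl⟩, ?_⟩
        rw [hFn]
        exact Ordinal.toZFSet_mem_toZFSet_iff.2 (hεX n ξ (hξ.trans hL.δμ) hn)
    rw [h2] at h1
    rcases h1 with h1 | ⟨g, hg, hgo⟩
    · have h3 : (D.γ i).toZFSet ∈ δ.toZFSet := Ordinal.toZFSet_mem_toZFSet_iff.2 hγδ
      rw [h1] at h3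
      exact ZFSet.notMem_empty _ h3
    · exact hNS g hg hgo

end CAA
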