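import Pool.Agent.H37.CA.Targets
import Pool.Agent.H37.CV.OR

/-!
# The number of the ray class characters fixed by an automorphism
-/

set_option autoImplicit false

open NumberField Complex Filter Topology

namespace Pool.Agent.H49.CA

open Pool.Agent.H37.CA Pool.Agent.H37.CV Pool.Agent.H28.RC Pool.Agent.H25 Pool.Agent.H25.HK

variable {F : Type} [Field F] [NumberField F]

theorem isUnit_of_cop {m : Ideal (𝓞 F)} {a : 𝓞 F} (h : Ideal.span {a} ⊔ m = ⊤) :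
    IsUnit (Ideal.Quotient.mk m a) := by
  have h4 : (1 : 𝓞 F) ∈ Ideal.span {a} ⊔ m := by rw [h]; trivial
  obtain ⟨x, hx, y, hy, hxy⟩ := Submodule.mem_sup.1 h4
  obtain ⟨z, rfl⟩ := Ideal.mem_span_singleton'.1 hx
  refine IsUnit.of_mul_eq_one (Ideal.Quotient.mk m z) ?_
  rw [← map_mul, ← map_one (Ideal.Quotient.mk m), Ideal.Quotient.eq, ← hxy]
  have : a * z - (z * a + y) = -y := by ring
  rw [this]
  exact m.neg_mem hy

theorem cop_of_isUnit {m : Ideal (𝓞 F)} {a : 𝓞 F} (h : IsUnit (Ideal.Quotient.mk m a)) :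
    Ideal.span {a} ⊔ m = ⊤ := by
  obtain ⟨b, hb⟩ := h.exists_right_inv
  obtain ⟨b, rfl⟩ := Ideal.Quotient.mk_surjective b
  rw [← map_mul, ← map_one (Ideal.Quotient.mk m), Ideal.Quotient.eq] at hb
  rw [Ideal.eq_top_iff_one]
  have : (1 : 𝓞 F) = b * a + -(a * b - 1) := by ring
  rw [this]
  exact Ideal.add_mem _ (Ideal.mem_sup_left (Ideal.mem_span_singleton'.2 ⟨b, rfl⟩))
    (Ideal.mem_sup_right (m.neg_mem hb))

theorem ne_zero_of_cop {m : Ideal (𝓞 F)} (hm : m ≠ ⊤) {a : 𝓞 F}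
    (h : Ideal.span {a} ⊔ m = ⊤) : a ≠ 0 := by
  rintro rfl
  rw [Ideal.span_singleton_eq_bot.2 rfl, bot_sup_eq] at h
  exact hm h

/-- a lift of a unit -/
noncomputable def lf (m : Ideal (𝓞 F)) (x : (𝓞 F ⧸ m)ˣ) : 𝓞 F :=
  (Ideal.Quotient.mk_surjective (x : 𝓞 F ⧸ m)).choose

theorem mk_lf (m : Ideal (𝓞 F)) (x : (𝓞 F ⧸ m)ˣ) :
    Ideal.Quotient.mk m (lf m x) = (x : 𝓞 F ⧸ m) :=
  (Ideal.Quotient.mk_surjective (x : 𝓞 F ⧸ m)).choose_spec

theorem cop_lf (m : Ideal (𝓞 F)) (x : (𝓞 F ⧸ m)ˣ) : Ideal.span {lf m x} ⊔ m = ⊤ :=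
  cop_of_isUnit (by rw [mk_lf]; exact x.isUnit)

theorem val_eq {m : Ideal (𝓞 F)} (hm : m ≠ ⊤) {ψ : Ideal (𝓞 F) → ℂ} (hψ : ψ ∈ Ch m m)
    (x : (𝓞 F ⧸ m)ˣ) (a : 𝓞 F) (h : Ideal.Quotient.mk m a = (x : 𝓞 F ⧸ m)) :
    ψ (Ideal.span {a}) = ψ (Ideal.span {lf m x}) := by
  have ha : Ideal.span {a} ⊔ m = ⊤ := cop_of_isUnit (by rw [h]; exact x.isUnit)
  refine hψ.2 a _ (ne_zero_of_cop hm ha) (ne_zero_of_cop hm (cop_lf m x)) ha (cop_lf m x) ?_
  rw [← Ideal.Quotient.eq, mk_lf, h]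

/-- the character of the units -/
noncomputable def hC {m : Ideal (𝓞 F)} (hm : m ≠ ⊤) {ψ : Ideal (𝓞 F) → ℂ} (hψ : ψ ∈ Ch m m) :
    (𝓞 F ⧸ m)ˣ →* ℂ where
  toFun x := ψ (Ideal.span {lf m x})
  map_one' := by
    rw [← val_eq hm hψ 1 1 (by simp), Ideal.span_singleton_one, hψ.1.one]
  map_mul' x y := by
    rw [← val_eq hm hψ (x * y) (lf m x * lf m y) (by rw [map_mul, mk_lf, mk_lf, Units.val_mul]),
      ← Ideal.span_singleton_mul_span_singleton, hψ.1.mul]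

theorem qi_ne_top (q : ℕ) (hq : q.Prime) : qi F q ≠ ⊤ := by
  intro h
  rw [qi, Ideal.span_singleton_eq_top] at h
  have h1 : Ideal.absNorm (Ideal.span {(q : 𝓞 F)}) = 1 := by
    rw [Ideal.absNorm_eq_one_iff, Ideal.span_singleton_eq_top]
    exact h
  rw [Ideal.absNorm_span_natCast] at h1
  have h2 : Module.finrank ℤ (𝓞 F) ≠ 0 := by
    rw [RingOfIntegers.rank]
    exact Module.finrank_pos.ne'
  exact absurd h1 (Nat.one_lt_pow h2 hq.one_lt).ne'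

theorem qi_ne_bot (q : ℕ) (hq : q.Prime) : qi F q ≠ ⊥ := by
  rw [qi, Ne, Ideal.span_singleton_eq_bot]
  exact_mod_cast hq.ne_zero

/-- the automorphism of the ring of integers -/
noncomputable def sR (σ : F ≃ₐ[ℚ] F) : 𝓞 F →+* 𝓞 F :=
  MulSemiringAction.toRingHom (F ≃ₐ[ℚ] F) (𝓞 F) σ

theorem sR_apply (σ : F ≃ₐ[ℚ] F) (x : 𝓞 F) : sR σ x = σ • x := rfl

theorem qi_le (q : ℕ) (σ : F ≃ₐ[ℚ] F) : qi F q ≤ (qi F q).comap (sR σ) := by
  rw [qi, Ideal.span_singleton_le_iff_mem, Ideal.mem_comap, map_natCast]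
  exact Ideal.mem_span_singleton_self _

/-- the action on the units -/
noncomputable def sX (q : ℕ) (σ : F ≃ₐ[ℚ] F) : (𝓞 F ⧸ qi F q)ˣ →* (𝓞 F ⧸ qi F q)ˣ :=
  Units.map (Ideal.quotientMap (qi F q) (sR σ) (qi_le q σ)).toMonoidHom

theorem sX_val (q : ℕ) (σ : F ≃ₐ[ℚ] F) (x : (𝓞 F ⧸ qi F q)ˣ) :
    ((sX q σ x : (𝓞 F ⧸ qi F q)ˣ) : 𝓞 F ⧸ qi F q) =
      Ideal.Quotient.mk (qi F q) (sR σ (lf (qi F q) x)) := by
  change Ideal.quotientMap (qi F q) (sR σ) (qi_le q σ) (x : 𝓞 F ⧸ qi F q) = _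
  rw [← mk_lf, Ideal.quotientMap_mk]

theorem cj_span (σ : F ≃ₐ[ℚ] F) (a : 𝓞 F) : cj σ (Ideal.span {a}) = Ideal.span {sR σ a} := by
  rw [cj, Ideal.map_span, Set.image_singleton]
  rfl

/-- the homomorphism `x ↦ σ x / x` -/
noncomputable def dX (q : ℕ) (σ : F ≃ₐ[ℚ] F) : (𝓞 F ⧸ qi F q)ˣ →* (𝓞 F ⧸ qi F q)ˣ :=
  sX q σ / MonoidHom.id _

theorem dX_apply (q : ℕ) (σ : F ≃ₐ[ℚ] F) (x : (𝓞 F ⧸ qi F q)ˣ) : dX q σ x = sX q σ x / x := rfl

/-- the fixed characters come from the quotient -/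
theorem exists_quot (q : ℕ) (hq : q.Prime) (σ : F ≃ₐ[ℚ] F) {ψ : Ideal (𝓞 F) → ℂ}
    (hψ : ψ ∈ Ch (qi F q) (qi F q)) (hσ : ∀ I : Ideal (𝓞 F), ψ (cj σ I) = ψ I) :
    ∃ θ : ((𝓞 F ⧸ qi F q)ˣ ⧸ (dX q σ).range) →* ℂˣ,
      ∀ x : (𝓞 F ⧸ qi F q)ˣ, ((θ (QuotientGroup.mk x) : ℂˣ) : ℂ) =
        ψ (Ideal.span {lf (qi F q) x}) := by
  have hm := qi_ne_top (F := F) q hq
  let χ : (𝓞 F ⧸ qi F q)ˣ →* ℂˣ := (hC hm hψ).toHomUnits
  have hχ : ∀ x, ((χ x : ℂˣ) : ℂ) = ψ (Ideal.span {lf (qi F q) x}) := fun x => rfl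
  have hker : (dX q σ).range ≤ χ.ker := by
    rintro _ ⟨x, rfl⟩
    rw [MonoidHom.mem_ker, dX_apply, map_div, div_eq_one]
    refine Units.ext ?_
    rw [hχ, hχ, ← val_eq hm hψ (sX q σ x) (sR σ (lf (qi F q) x)) (sX_val q σ x).symm,
      ← cj_span, hσ]
  refine ⟨QuotientGroup.lift (dX q σ).range χ hker, fun x => ?_⟩
  rw [QuotientGroup.lift_mk, hχ]

theorem index_range_eq {G : Type} [CommGroup G] [Finite G] (f : G →* G) :
    f.range.index = Nat.card f.ker := by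
  have h1 := Subgroup.card_mul_index f.range
  have h2 := Subgroup.card_mul_index f.ker
  rw [Subgroup.index_ker] at h2
  have h3 : 0 < Nat.card f.range := Nat.card_pos
  refine Nat.eq_of_mul_eq_mul_left h3 ?_
  rw [h1, mul_comm, h2]

/-- the number of the characters of a finite group -/
theorem card_dual (G : Type) [CommGroup G] [Finite G] :
    Finite (G →* ℂˣ) ∧ Nat.card (G →* ℂˣ) = Nat.card G := by
  have h1 := CommGroup.card_monoidHom_of_hasEnoughRootsOfUnity G ℂ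
  have h2 : 0 < Nat.card G := Nat.card_pos
  exact ⟨(Nat.card_pos_iff.1 (by rw [h1]; exact h2)).2, h1⟩

theorem card_dual_quot (G : Type) [CommGroup G] [Finite G] (H : Subgroup G) :
    Finite ((G ⧸ H) →* ℂˣ) ∧ Nat.card ((G ⧸ H) →* ℂˣ) = H.index := by
  haveI : Finite (G ⧸ H) := Quotient.finite _
  obtain ⟨h1, h2⟩ := card_dual (G ⧸ H)
  exact ⟨h1, h2⟩

/-- the number of the fixed units -/
theorem card_ker_le (q : ℕ) (hq : q.Prime) (σ : F ≃ₐ[ℚ] F) :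
    Nat.card (dX q σ).ker ≤ {y : 𝓞 F ⧸ qi F q | ∃ x : 𝓞 F, Ideal.Quotient.mk (qi F q) x = y ∧
      σ • x - x ∈ qi F q}.ncard := by
  haveI : Finite (𝓞 F ⧸ qi F q) := Ideal.finiteQuotientOfFreeOfNeBot _ (qi_ne_bot q hq)
  have h1 : Nat.card (dX q σ).ker =
      ((fun x : (𝓞 F ⧸ qi F q)ˣ => (x : 𝓞 F ⧸ qi F q)) '' ((dX q σ).ker : Set _)).ncard := by
    rw [Set.ncard_image_of_injective _ Units.val_injective]
    rfl
  rw [h1]
  refine Set.ncard_le_ncard ?_ (Set.toFinite _)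
  rintro _ ⟨x, hx, rfl⟩
  refine ⟨lf (qi F q) x, mk_lf _ x, ?_⟩
  have h2 : dX q σ x = 1 := hx
  rw [dX_apply, div_eq_one] at h2
  rw [← Ideal.Quotient.eq, ← sR_apply, ← sX_val, h2, mk_lf]

/-- the characters with given values at the principal ideals -/
theorem fib_card (m : Ideal (𝓞 F)) (hm : m ≠ ⊤) (A : Finset (Ideal (𝓞 F) → ℂ))
    (hA : ∀ ψ ∈ A, ψ ∈ Ch m m) (g : (𝓞 F ⧸ m)ˣ → ℂ)
    (hg : ∀ ψ ∈ A, ∀ x, ψ (Ideal.span {lf m x}) = g x) :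
    A.card ≤ Fintype.card (ClassGroup (𝓞 F)) ^ Fintype.card (ClassGroup (𝓞 F)) := by
  classical
  set n := Fintype.card (ClassGroup (𝓞 F)) with hn
  have hn0 : 0 < n := Fintype.card_pos
  have hcop : ∀ (I : Ideal (𝓞 F)) (n : ℕ), I ⊔ m = ⊤ → I ^ n ⊔ m = ⊤ := by
    intro I n hI
    induction n with
    | zero => rw [pow_zero, Ideal.one_eq_top, top_sup_eq]
    | succ n ih => rw [pow_succ]; exact cop_mul ih hI
  let cl : SMm m → ClassGroup (𝓞 F) := fun I =>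
    ClassGroup.mk0 ⟨I.1, mem_nonZeroDivisors_of_ne_zero I.2.1⟩
  let rep : ClassGroup (𝓞 F) → SMm m := fun c => if h : ∃ J, cl J = c then h.choose else 1
  have hrep : ∀ I : SMm m, cl (rep (cl I)) = cl I := by
    intro I
    have h : ∃ J, cl J = cl I := ⟨I, rfl⟩
    simp only [rep, dif_pos h]
    exact h.choose_spec
  -- values at principal ideals
  have hval : ∀ (I : Ideal (𝓞 F)) (a : 𝓞 F), I ⊔ m = ⊤ → Ideal.span {a} = I →
      ∃ x : (𝓞 F ⧸ m)ˣ, ∀ ψ ∈ A, ψ I = g x := by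
    intro I a hI ha
    subst ha
    obtain ⟨x, hx⟩ := isUnit_of_cop hI
    exact ⟨x, fun ψ hψ => by rw [val_eq hm (hA ψ hψ) x a hx.symm, hg ψ hψ x]⟩
  -- the power of the representative
  have hpow : ∀ c : ClassGroup (𝓞 F), ∃ w : ℂ, ∀ ψ ∈ A, ψ (rep c).1 ^ n = w := by
    intro c
    obtain ⟨a, ha⟩ := mk0_pow_principal (rep c).1 (rep c).1 (rep c).2.1 (rep c).2.1 rfl
    have h1 : (rep c).1 * (rep c).1 ^ (n - 1) = (rep c).1 ^ n := by
      rw [← pow_succ', Nat.sub_add_cancel hn0]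
    rw [← hn, h1] at ha
    obtain ⟨x, hx⟩ := hval _ a (hcop _ n (rep c).2.2) ha
    refine ⟨g x, fun ψ hψ => ?_⟩
    rw [← hx ψ hψ]
    have hψ' := (hA ψ hψ).1
    have : ∀ k : ℕ, ψ ((rep c).1 ^ k) = ψ (rep c).1 ^ k := by
      intro k
      induction k with
      | zero => rw [pow_zero, pow_zero, Ideal.one_eq_top, hψ'.one]
      | succ k ih => rw [pow_succ, pow_succ, hψ'.mul, ih]
    exact (this n).symm
  choose w hw using hpow
  have hmem : ∀ ψ ∈ A, (fun c => ψ (rep c).1) ∈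
      Fintype.piFinset (fun c => (Polynomial.nthRoots n (w c)).toFinset) := by
    intro ψ hψ
    rw [Fintype.mem_piFinset]
    intro c
    rw [Multiset.mem_toFinset, Polynomial.mem_nthRoots hn0]
    exact hw c ψ hψ
  have hinj : Set.InjOn (fun (ψ : Ideal (𝓞 F) → ℂ) (c : ClassGroup (𝓞 F)) => ψ (rep c).1)
      (A : Set (Ideal (𝓞 F) → ℂ)) := by
    intro ψ₁ h1 ψ₂ h2 h12
    have h1' := hA ψ₁ h1
    have h2' := hA ψ₂ h2
    funext I
    by_cases hI : I ≠ ⊥ ∧ I ⊔ m = ⊤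
    · obtain ⟨J, hJ⟩ : ∃ J : SMm m, J.1 = I := ⟨⟨I, hI⟩, rfl⟩
      subst hJ
      obtain ⟨a, ha⟩ := mk0_pow_principal J.1 (rep (cl J)).1 J.2.1 (rep (cl J)).2.1 (hrep J).symm
      rw [← hn] at ha
      obtain ⟨x, hx⟩ := hval _ a (cop_mul J.2.2 (hcop _ (n - 1) (rep (cl J)).2.2)) ha
      have h3 := hx ψ₁ h1
      have h4 := hx ψ₂ h2
      rw [h1'.1.mul] at h3
      rw [h2'.1.mul] at h4
      have hp : ∀ (ψ : Ideal (𝓞 F) → ℂ), ψ ∈ Ch m m → ∀ k : ℕ,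
          ψ ((rep (cl J)).1 ^ k) = ψ (rep (cl J)).1 ^ k := by
        intro ψ hψ k
        induction k with
        | zero => rw [pow_zero, pow_zero, Ideal.one_eq_top, hψ.1.one]
        | succ k ih => rw [pow_succ, pow_succ, hψ.1.mul, ih]
      rw [hp ψ₁ h1'] at h3
      rw [hp ψ₂ h2'] at h4
      have h5 : ψ₁ (rep (cl J)).1 = ψ₂ (rep (cl J)).1 := congrFun h12 (cl J)
      rw [h5, ← h4] at h3
      refine mul_right_cancel₀ ?_ h3
      refine pow_ne_zero _ fun h6 => ?_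
      have h7 := h2'.1.norm _ (rep (cl J)).2.1 (rep (cl J)).2.2
      rw [h6, norm_zero] at h7
      exact zero_ne_one h7
    · by_cases h3 : I = ⊥
      · rw [h3, h1'.1.bot, h2'.1.bot]
      · rw [h1'.1.zero I fun h4 => hI ⟨h3, h4⟩, h2'.1.zero I fun h4 => hI ⟨h3, h4⟩]
  calc A.card ≤ (Fintype.piFinset (fun c : ClassGroup (𝓞 F) =>
        (Polynomial.nthRoots n (w c)).toFinset)).card :=
        Finset.card_le_card_of_injOn _ hmem hinj
    _ = ∏ c : ClassGroup (𝓞 F), (Polynomial.nthRoots n (w c)).toFinset.card :=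
        Fintype.card_piFinset _
    _ ≤ ∏ _c : ClassGroup (𝓞 F), n := Finset.prod_le_prod' fun c _ =>
        (Multiset.toFinset_card_le _).trans (Polynomial.card_nthRoots n (w c))
    _ = n ^ n := by rw [Finset.prod_const, Finset.card_univ]

theorem pf_CFX (hFXP : T_FXP) : T_CFX := by
  classical
  intro F _ _ _ _
  set n := Fintype.card (ClassGroup (𝓞 F)) with hn
  refine ⟨((n ^ n : ℕ) : ℝ), fun q hq hdq σ hσ => ?_⟩
  set A := {ψ | ψ ∈ Ch (qi F q) (qi F q) ∧ ∀ I : Ideal (𝓞 F), ψ (cj σ I) = ψ I} with hA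
  have hm := qi_ne_top (F := F) q hq
  have hq0 : (0 : ℝ) < q := by exact_mod_cast hq.pos
  by_cases hfin : A.Finite
  swap
  · rw [Set.Infinite.ncard hfin, Nat.cast_zero]
    positivity
  haveI : Finite (𝓞 F ⧸ qi F q) := Ideal.finiteQuotientOfFreeOfNeBot _ (qi_ne_bot q hq)
  have hS := hFXP F q hq hdq σ hσ
  set S := {y : 𝓞 F ⧸ qi F q | ∃ x : 𝓞 F, Ideal.Quotient.mk (qi F q) x = y ∧
      σ • x - x ∈ qi F q} with hSdef
  let f : (Ideal (𝓞 F) → ℂ) → ((𝓞 F ⧸ qi F q)ˣ → ℂ) := fun ψ x =>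
    ψ (Ideal.span {lf (qi F q) x})
  have h1 : hfin.toFinset.card ≤ n ^ n * (hfin.toFinset.image f).card := by
    refine Finset.card_le_mul_card_image _ _ fun g _ => ?_
    refine fib_card (qi F q) hm _ (fun ψ hψ => ?_) g (fun ψ hψ x => ?_)
    · exact (hfin.mem_toFinset.1 (Finset.mem_filter.1 hψ).1).1
    · exact congrFun (Finset.mem_filter.1 hψ).2 x
  obtain ⟨hfinQ, hcardQ⟩ := card_dual_quot (𝓞 F ⧸ qi F q)ˣ (dX q σ).range
  have h2 : (hfin.toFinset.image f).card ≤ Nat.card (dX q σ).ker := by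
    have h3 : ((hfin.toFinset.image f : Finset _) : Set ((𝓞 F ⧸ qi F q)ˣ → ℂ)) ⊆
        Set.range (fun (θ : ((𝓞 F ⧸ qi F q)ˣ ⧸ (dX q σ).range) →* ℂˣ) (x : (𝓞 F ⧸ qi F q)ˣ) =>
          ((θ (QuotientGroup.mk x) : ℂˣ) : ℂ)) := by
      intro g hg
      obtain ⟨ψ, hψ, rfl⟩ := Finset.mem_image.1 (Finset.mem_coe.1 hg)
      obtain ⟨h4, h5⟩ := hfin.mem_toFinset.1 hψ
      obtain ⟨θ, hθ⟩ := exists_quot q hq σ h4 h5
      exact ⟨θ, funext hθ⟩
    rw [← Set.ncard_coe_finset]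
    refine (Set.ncard_le_ncard h3 (Set.finite_range _)).trans ?_
    rw [← Set.image_univ]
    refine (Set.ncard_image_le (Set.finite_univ)).trans ?_
    rw [Set.ncard_univ, hcardQ, index_range_eq]
  have h3 := card_ker_le q hq σ
  have h4 : (S.ncard : ℝ) ≤ (q : ℝ) ^ ((Module.finrank ℚ F : ℝ) / 2) := by
    have h5 : (S.ncard : ℝ) ^ 2 ≤ ((q : ℝ) ^ ((Module.finrank ℚ F : ℝ) / 2)) ^ 2 := by
      rw [← Real.rpow_natCast ((q : ℝ) ^ ((Module.finrank ℚ F : ℝ) / 2)) 2,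
        ← Real.rpow_mul hq0.le]
      have h6 : (Module.finrank ℚ F : ℝ) / 2 * ((2 : ℕ) : ℝ) = (Module.finrank ℚ F : ℝ) := by
        push_cast
        ring
      rw [h6, Real.rpow_natCast]
      exact_mod_cast hS
    exact (pow_le_pow_iff_left₀ (by positivity) (by positivity) two_ne_zero).1 h5
  have h5 : A.ncard ≤ n ^ n * S.ncard := by
    rw [Set.ncard_eq_toFinset_card _ hfin]
    exact h1.trans (Nat.mul_le_mul_left _ (h2.trans h3))
  calc (A.ncard : ℝ) ≤ ((n ^ n * S.ncard : ℕ) : ℝ) := by exact_mod_cast h5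
    _ = ((n ^ n : ℕ) : ℝ) * (S.ncard : ℝ) := by push_cast; ring
    _ ≤ _ := mul_le_mul_of_nonneg_left h4 (by positivity)

end Pool.Agent.H49.CA
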