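import Pool.Agent.H9.CA.TarG

/-! Auxiliary facts for the rows HD and SE. -/

set_option linter.unusedVariables false

open Ordinal Order Set
open scoped ZFSet

namespace Pool.Agent.H49.CA

open SF CAA

theorem sup_ord (S : V) (η : Ordinal.{0}) (hS : S ⊆ η.toZFSet) :
    ∃ e ≤ η, (⋃₀ (imS S fun x => insert x x) : ZFSet) = e.toZFSet ∧
      (∀ ξ : Ordinal.{0}, ξ.toZFSet ∈ S → ξ < e) ∧
      ∀ ζ < e, ∃ ξ : Ordinal.{0}, ξ.toZFSet ∈ S ∧ ζ ≤ ξ := by
  have hm : ∀ z : V, z ∈ (⋃₀ (imS S fun x => insert x x) : ZFSet) ↔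
      ∃ x ∈ S, z = x ∨ z ∈ x := by
    intro z
    rw [ZFSet.mem_sUnion]
    constructor
    · rintro ⟨_, hw, hz⟩
      obtain ⟨x, hx, rfl⟩ := mem_imS.1 hw
      exact ⟨x, hx, ZFSet.mem_insert_iff.1 hz⟩
    · rintro ⟨x, hx, h⟩
      exact ⟨_, mem_imS.2 ⟨x, hx, rfl⟩, ZFSet.mem_insert_iff.2 h⟩
  have hsub : (⋃₀ (imS S fun x => insert x x) : ZFSet) ⊆ η.toZFSet := by
    intro z hz
    obtain ⟨x, hx, h⟩ := (hm z).1 hz
    rcases h with rfl | h
    · exact hS hx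
    · exact (ZFSet.isOrdinal_toZFSet η).mem_trans h (hS hx)
  have hord : IsOrd (⋃₀ (imS S fun x => insert x x) : ZFSet) := by
    rw [isOrd_iff]
    constructor
    · intro z hz y hy
      obtain ⟨x, hx, h⟩ := (hm z).1 hz
      rcases h with rfl | h
      · exact (hm y).2 ⟨z, hx, Or.inr hy⟩
      · obtain ⟨x', -, rfl⟩ := Ordinal.mem_toZFSet_iff.1 (hS hx)
        exact (hm y).2 ⟨_, hx, Or.inr ((ZFSet.isOrdinal_toZFSet x').mem_trans hy h)⟩
    · intro z hz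
      obtain ⟨z', -, rfl⟩ := Ordinal.mem_toZFSet_iff.1 (hsub hz)
      exact (ZFSet.isOrdinal_toZFSet z').isTransitive
  obtain ⟨e, he⟩ := hord
  refine ⟨e, ?_, he, ?_, ?_⟩
  · by_contra hlt
    rw [not_le] at hlt
    have h1 : η.toZFSet ∈ e.toZFSet := Ordinal.toZFSet_mem_toZFSet_iff.2 hlt
    rw [← he] at h1
    exact absurd (Ordinal.toZFSet_mem_toZFSet_iff.1 (hsub h1)) (lt_irrefl _)
  · intro ξ hξ
    have h1 : ξ.toZFSet ∈ (⋃₀ (imS S fun x => insert x x) : ZFSet) :=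
      (hm _).2 ⟨_, hξ, Or.inl rfl⟩
    rw [he] at h1
    exact Ordinal.toZFSet_mem_toZFSet_iff.1 h1
  · intro ζ hζ
    have h1 : ζ.toZFSet ∈ e.toZFSet := Ordinal.toZFSet_mem_toZFSet_iff.2 hζ
    rw [← he] at h1
    obtain ⟨x, hx, h⟩ := (hm _).1 h1
    obtain ⟨x', -, rfl⟩ := Ordinal.mem_toZFSet_iff.1 (hS hx)
    refine ⟨x', hx, ?_⟩
    rcases h with h | h
    · exact (Ordinal.toZFSet_injective h).le
    · exact (Ordinal.toZFSet_mem_toZFSet_iff.1 h).le

theorem fst_dr_lc (i : ℕ) (l : List V) : fst (dr i (lc l)) = l.getD i ∅ := by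
  rw [dr_lc]
  by_cases h : i < l.length
  · rw [List.getD_eq_getElem _ _ h, List.drop_eq_getElem_cons h]
    exact fst_pair _ _
  · rw [List.getD_eq_default _ _ (by omega), List.drop_eq_nil_of_le (by omega)]
    exact fst_empty

theorem tm_dr (i : ℕ) {g : (V → Prop) → (ℕ → V) → V} (hg : Tm ZFm g) :
    Tm ZFm (fun M v => dr i (g M v)) :=
  (Tm.dr (Tm.nS i) hg).congr fun M k v hv => by rw [nn_nS]

theorem LA_trans (α : Ordinal.{0}) : (LA ∅ α : V).IsTransitive :=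
  Lh_isTransitive ZFSet.isTransitive_empty α

theorem LA_mono {α β : Ordinal.{0}} (h : α ≤ β) : (LA ∅ α : V) ⊆ LA ∅ β := Lh_mono h

theorem LA_mem {α β : Ordinal.{0}} (h : α < β) : (LA ∅ α : V) ∈ LA ∅ β := Lh_mem h

theorem ord_LA {α β : Ordinal.{0}} (h : α < β) : α.toZFSet ∈ (LA ∅ β : V) :=
  ord_mem_Lh ZFSet.isTransitive_empty h

/-- the first parameter of the functions and its components -/
noncomputable def kaP (a : V) : V := fst (snd a)
/-- component -/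
noncomputable def gaP (a : V) : V := fst (snd (snd a))
/-- component -/
noncomputable def muP (a : V) : V := fst (snd (snd (snd a)))

theorem kaP_par (D : Dat) (a' : V) (ρ : Ordinal.{0}) : kaP (par D a' ρ) = D.κ.toZFSet := by
  unfold kaP par
  simp only [fst_pair, snd_pair]

theorem gaP_par (D : Dat) (a' : V) (ρ : Ordinal.{0}) : gaP (par D a' ρ) = D.ga := by
  unfold gaP par
  simp only [fst_pair, snd_pair]

theorem muP_par (D : Dat) (a' : V) (ρ : Ordinal.{0}) : muP (par D a' ρ) = D.mu := by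
  unfold muP par
  simp only [fst_pair, snd_pair]

theorem tm_kaP {g : (V → Prop) → (ℕ → V) → V} (hg : Tm ZFm g) : Tm ZFm (fun M v => kaP (g M v)) :=
  Tm.fst (Tm.snd hg)

theorem tm_gaP {g : (V → Prop) → (ℕ → V) → V} (hg : Tm ZFm g) : Tm ZFm (fun M v => gaP (g M v)) :=
  Tm.fst (Tm.snd (Tm.snd hg))

theorem tm_muP {g : (V → Prop) → (ℕ → V) → V} (hg : Tm ZFm g) : Tm ZFm (fun M v => muP (g M v)) :=
  Tm.fst (Tm.snd (Tm.snd (Tm.snd hg)))

end Pool.Agent.H49.CA
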