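import Pool.Agent.H49.CA.Bas

/-! HD: the hull of `H_m ∪ L_{γ k}` below `μ k`. -/

set_option linter.unusedVariables false

open Ordinal Order Set
open scoped ZFSet

namespace Pool.Agent.H49.CA

open SF CAA

theorem union_e (x : V) : x ∪ ∅ = x := by
  ext z
  rw [ZFSet.mem_union]
  exact ⟨fun h => h.resolve_right (ZFSet.notMem_empty z), Or.inl⟩

theorem e_union (x : V) : ∅ ∪ x = x := by
  ext z
  rw [ZFSet.mem_union]
  exact ⟨fun h => h.resolve_left (ZFSet.notMem_empty z), Or.inr⟩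

/-- the pairs `(s, x)`, `s` the code of a list of elements of `L_{γ k'}`, `x` an element of `μ k'`
which is defined from the list (and from elements of the hull); `w 0 = k'`, `w 1` is the code of the
data, `w (i + 2)` are elements of the hull -/
noncomputable def Tk (φ : Fml) (M : V → Prop) (w : ℕ → V) : V :=
  (ZFSet.prod (Lw (LAS ∅ (app (gaP (w 1)) (w 0)))) (app (muP (w 1)) (w 0))).sep fun t =>
    ∀ y, M y → (Sat M φ (cons y fun i => w (i + 2) ∪ fst (dr i (fst t))) ↔ y = snd t)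

theorem tm_Tk (φ : Fml) : Tm ZFm (Tk φ) := by
  refine (Tm.sep (R := fun M w => ∀ y, M y →
    (Sat M φ (cons y fun i => w (i + 3) ∪ fst (dr i (fst (w 0)))) ↔ y = snd (w 0)))
    (f := fun _ w => ZFSet.prod (Lw (LAS ∅ (app (gaP (w 1)) (w 0)))) (app (muP (w 1)) (w 0)))
    ?_ ?_).congr fun M k v hv => rfl
  · refine (Dfb.all (R := fun M w =>
      Sat M φ (cons (w 0) fun i => w (i + 4) ∪ fst (dr i (fst (w 1)))) ↔ w 0 = snd (w 1))
      ?_).congr fun M k v hv => Iff.rfl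
    refine Dfb.iff ?_ (Dfb.eq (Tm.var 0) (Tm.snd (Tm.var 1)))
    have h0 : Dfb ZFm (fun M v => Sat M φ v) := ⟨φ, fun _ _ _ _ => Iff.rfl⟩
    refine (h0.comp (fun i => match i with
      | 0 => fun _ w => w 0
      | i + 1 => fun _ w => w (i + 4) ∪ fst (dr i (fst (w 1)))) (fun i => ?_)).congr
      fun M k v hv => ?_
    · cases i with
      | zero => exact Tm.var 0
      | succ i => exact Tm.union (Tm.var _) (Tm.fst (tm_dr i (Tm.fst (Tm.var 1))))
    · have e : (fun i => (match i with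
        | 0 => fun _ w => w 0
        | i + 1 => fun _ w => w (i + 4) ∪ fst (dr i (fst (w 1))) :
          (V → Prop) → (ℕ → V) → V) M v) =
          cons (v 0) fun i => v (i + 4) ∪ fst (dr i (fst (v 1))) := by
        funext i
        cases i <;> rfl
      rw [e]
  · exact Tm.prod (Tm.Lw (Tm.LAS Tm.empty (Tm.app (tm_gaP (Tm.var 1)) (Tm.var 0))))
      (Tm.app (tm_muP (Tm.var 1)) (Tm.var 0))

/-- the function of the suprema; `v 0` is the code of the data, `v (i + 1)` are elements of the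
hull -/
noncomputable def Gk (φ : Fml) (M : V → Prop) (v : ℕ → V) : V :=
  resS (kaP (v 0)) fun k => (⋃₀ (imS (rg (Tk φ M (cons k v))) fun x => insert x x) : ZFSet)

theorem tm_Gk (φ : Fml) : Tm ZFm (Gk φ) := by
  refine Tm.resS (f := fun _ v => kaP (v 0))
    (g := fun M w => (⋃₀ (imS (rg (Tk φ M w)) fun x => insert x x) : ZFSet)) ?_ ?_
  · exact tm_kaP (Tm.var 0)
  · exact Tm.iUn (f := fun M w => rg (Tk φ M w)) (g := fun _ w => insert (w 0) (w 0))
      (Tm.rg (tm_Tk φ)) (Tm.ins (Tm.var 0) (Tm.var 0))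

end Pool.Agent.H49.CA

namespace CAA

open SF Pool.Agent.H49.CA

theorem pf_HD (hHB : T_HB) (hDC : T_DC) (hDE : T_DE) (hDF : T_DF) (hGH : T_GH) : T_HD := by
  intro D hD i hi ρ hρ a' ha' m hm hml k hik hk δ hδ hup hdn
  have zN := hD.grd.zχ
  have hκχ := hD.grd.κχ
  have hχθ := hD.grd.χθ
  have hρχ : ρ < D.χ := (hρ.trans (hD.sz.μκ i hi)).trans hκχ
  have haN : par D a' ρ ∈ (LA ∅ D.χ : V) := by
    unfold par
    exact zN.mpair ha' (zN.mpair (ord_LA hκχ) (zN.mpair hD.sz.gaM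
      (zN.mpair hD.sz.muM (ord_LA hρχ))))
  obtain ⟨hHN, hHs, hHsm, hHel, haH, -, -⟩ := hHB D hD i hi ρ hρ _ haN m hm
  obtain ⟨hGd, hCM, hμl, hreg, -⟩ := (hGH D hD).1 k hk
  have hkμ := hD.sz.μκ k hk
  have hγκ := hD.sz.γκ k hk
  have hCN : (LA ∅ (D.γ k) : V) ∈ (LA ∅ D.χ : V) := LA_mem (hγκ.trans hκχ)
  have hCs : (LA ∅ (D.γ k) : V) ⊆ LA ∅ D.χ := LA_mono (hγκ.trans hκχ).le
  -- abbreviations
  generalize hN : (LA ∅ D.χ : V) = N at *
  generalize hH : Hc N (par D a' ρ) m.toZFSet = H at *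
  generalize hC : (LA ∅ (D.γ k) : V) = C at *
  generalize haa : par D a' ρ = a at *
  have h0N : (∅ : V) ∈ N := zN.mempty
  have hYN : H ∪ C ⊆ N := by
    intro x hx
    rcases ZFSet.mem_union.1 hx with h | h
    · exact hHs h
    · exact hCs h
  obtain ⟨hXel, hXne, hYX, -⟩ := hDC N ∅ D.χ zN h0N hN.symm (H ∪ C) hYN (Or.inl rfl)
  have hX1 := hDE.1 N _ hXel zN
  have hH1 := hDE.1 N H hHel zN
  have h0H : (∅ : V) ∈ H := hH1 (fun _ _ => ∅) Tm.empty (fun _ => a) (fun _ => haH)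
  have h0C : (∅ : V) ∈ C := by
    refine hGd.tr _ hGd.om ?_
    exact mem_om.2 ⟨0, nS_zero.symm⟩
  have hkC : k.toZFSet ∈ C := hC ▸ ord_LA (hD.sz.iγ k hk)
  have hgaA : app (gaP a) k.toZFSet = (D.γ k).toZFSet := by
    rw [← haa, gaP_par, hD.sz.gaA k hk]
  have hmuA : app (muP a) k.toZFSet = (D.μ k).toZFSet := by
    rw [← haa, muP_par, hD.sz.muA k hk]
  intro ξ hξ
  constructor
  · intro hx
    unfold Dcl at hx
    obtain ⟨hxN, φ, l, hl, hφ⟩ := ZFSet.mem_sep.1 hx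
    have hv0 : ∀ j, l.getD j ∅ ∈ H ∪ C := by
      intro j
      rw [List.getD_eq_getElem?_getD]
      cases h : l[j]? with
      | none => exact ZFSet.mem_union.2 (Or.inl h0H)
      | some b => exact (hl b (List.mem_of_getElem? h)).1
    obtain ⟨hs, us, hhs, hus, hun⟩ : ∃ hs us : ℕ → V, (∀ j, hs j ∈ H) ∧ (∀ j, us j ∈ C) ∧
        ∀ j, hs j ∪ us j = l.getD j ∅ := by
      have h1 : ∀ j, ∃ p q : V, p ∈ H ∧ q ∈ C ∧ p ∪ q = l.getD j ∅ := by
        intro j
        rcases ZFSet.mem_union.1 (hv0 j) with h | h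
        · exact ⟨_, ∅, h, h0C, union_e _⟩
        · exact ⟨∅, _, h0H, h, e_union _⟩
      choose p q h2 h3 h4 using h1
      exact ⟨p, q, h2, h3, h4⟩
    obtain ⟨ψ, hψ⟩ : ∃ ψ : Fml, ψ = φ.rn (fun j => if j ≤ l.length then j else 0) := ⟨_, rfl⟩
    obtain ⟨s, hs'⟩ : ∃ s : V, s = lc ((List.range ψ.bd).map us) := ⟨_, rfl⟩
    have hsat : ∀ x ∈ N, (Sat (· ∈ N) ψ (cons x fun i => hs i ∪ fst (dr i s)) ↔
        x = ξ.toZFSet) := by
      intro x hxN'
      have e1 : Sat (· ∈ N) ψ (cons x fun i => hs i ∪ fst (dr i s)) ↔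
          Sat (· ∈ N) ψ (cons x fun i => l.getD i ∅) := by
        refine satP_congr _ _ _ _ _ fun i hi => ?_
        cases i with
        | zero => rfl
        | succ i =>
          show hs i ∪ fst (dr i s) = l.getD i ∅
          rw [hs', fst_dr_lc, List.getD_eq_getElem _ _ (by simp; omega)]
          simpa using hun i
      have e2 : (fun j => cons x (fun i => l.getD i ∅) (if j ≤ l.length then j else 0)) =
          cons x fun i => l.getD i x := by
        funext j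
        cases j with
        | zero => rfl
        | succ j =>
          by_cases hj : j + 1 ≤ l.length
          · rw [if_pos hj]
            simp only [cons_succ]
            rw [List.getD_eq_getElem _ _ (by omega), List.getD_eq_getElem _ _ (by omega)]
          · rw [if_neg hj]
            simp only [cons_succ, cons_zero]
            rw [List.getD_eq_default _ _ (by omega)]
      rw [e1, hψ]
      unfold Sat
      rw [satP_rn, e2]
      exact hφ x hxN'
    have hFH : Gk ψ (· ∈ N) (cons a hs) ∈ H :=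
      hH1 _ (tm_Gk ψ) _ (In.cons (M := (· ∈ H)) hhs haH)
    obtain ⟨T, hT⟩ : ∃ T : V, T = Tk ψ (· ∈ N) (cons k.toZFSet (cons a hs)) := ⟨_, rfl⟩
    have hTN : T ∈ N := by
      rw [hT]
      refine (tm_Tk ψ).1 (· ∈ N) zN _ (In.cons (In.cons (fun j => hHs (hhs j)) (hHs haH)) ?_)
      exact zN.trans _ hCN _ hkC
    have hTe : T = (ZFSet.prod (Lw C) (D.μ k).toZFSet).sep fun t =>
        ∀ y, y ∈ N → (Sat (· ∈ N) ψ (cons y fun i => hs i ∪ fst (dr i (fst t))) ↔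
          y = snd t) := by
      have h1 : Tk ψ (· ∈ N) (cons k.toZFSet (cons a hs)) =
          (ZFSet.prod (Lw (LAS ∅ (app (gaP a) k.toZFSet))) (app (muP a) k.toZFSet)).sep fun t =>
            ∀ y, y ∈ N → (Sat (· ∈ N) ψ (cons y fun i => hs i ∪ fst (dr i (fst t))) ↔
              y = snd t) := rfl
      rw [hT, h1, hgaA, hmuA, LAS_ord, hC]
    have zM := hD.grd.zfc.toZFm
    have hμN : (D.μ k).toZFSet ∈ N := hN ▸ ord_LA (hkμ.trans hκχ)
    have hNM : ∀ x ∈ N, D.M x := by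
      intro x hx
      rw [← hN] at hx
      exact LA_mono hχθ.le hx
    have hTp : ∀ u x : V, ZFSet.pair u x ∈ T ↔ (u ∈ Lw C ∧ x ∈ (D.μ k).toZFSet) ∧
        ∀ y, y ∈ N → (Sat (· ∈ N) ψ (cons y fun i => hs i ∪ fst (dr i u)) ↔ y = x) := by
      intro u x
      rw [hTe, ZFSet.mem_sep, ZFSet.pair_mem_prod, fst_pair, snd_pair]
    have hSvl : Svl T := by
      intro u x y hx hy
      rw [hTp] at hx hy
      have hxN : x ∈ N := zN.trans _ hμN _ hx.1.2
      exact (hy.2 x hxN).1 ((hx.2 x hxN).2 rfl)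
    obtain ⟨-, df2, df3, -, -, df6, df7, -⟩ := hDF D.M zM C hCM hGd
    have smL : Sm D.M C (Lw C) := df6 C (df2 C hCM fun _ h => h)
    have hdN : dm T ∈ N := (Tm.dm (Tm.var 0)).1 (· ∈ N) zN (fun _ => T) fun _ => hTN
    have hrN : rg T ∈ N := (Tm.rg (Tm.var 0)).1 (· ∈ N) zN (fun _ => T) fun _ => hTN
    have smT : Sm D.M C (dm T) := by
      refine df3 _ _ (hNM _ hdN) smL ?_
      intro u hu
      obtain ⟨x, hx⟩ := mem_dm.1 hu
      exact ((hTp u x).1 hx).1.1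
    have smR : Sm D.M C (rg T) := df7 _ T smT (hNM _ hTN) hSvl rfl
    obtain ⟨η, hη, hηs⟩ := hreg (rg T) (hNM _ hrN) smR (by
      intro x hx
      obtain ⟨u, hu⟩ := mem_rg.1 hx
      exact ((hTp u x).1 hu).1.2)
    obtain ⟨e, heη, hE, he1, -⟩ := sup_ord (rg T) η hηs
    have hξT : ξ.toZFSet ∈ rg T := by
      refine mem_rg.2 ⟨s, (hTp _ _).2 ⟨⟨?_, Ordinal.toZFSet_mem_toZFSet_iff.2 hξ⟩, hsat⟩⟩
      rw [hs']
      refine mem_Lw.2 ⟨_, ?_, rfl⟩
      intro p hp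
      obtain ⟨j, -, rfl⟩ := List.mem_map.1 hp
      exact hus j
    have hFk : app (Gk ψ (· ∈ N) (cons a hs)) k.toZFSet = e.toZFSet := by
      have h1 : Gk ψ (· ∈ N) (cons a hs) = resS (kaP a) fun k =>
          (⋃₀ (imS (rg (Tk ψ (· ∈ N) (cons k (cons a hs)))) fun x => insert x x) : ZFSet) := rfl
      rw [h1, app_resS, ← hT, hE]
      rw [← haa, kaP_par]
      exact Ordinal.toZFSet_mem_toZFSet_iff.2 hk
    exact (he1 ξ hξT).trans (hdn _ hFH e (heη.trans_lt hη) hFk)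
  · intro hx
    obtain ⟨f, hf, η, hη, hfη, hξη⟩ := hup ξ hx
    have hHX : H ⊆ Dcl N (H ∪ C) := fun z hz => hYX (ZFSet.mem_union.2 (Or.inl hz))
    have hCX : C ⊆ Dcl N (H ∪ C) := fun z hz => hYX (ZFSet.mem_union.2 (Or.inr hz))
    have happ : ∀ x ∈ Dcl N (H ∪ C), ∀ y ∈ Dcl N (H ∪ C), app x y ∈ Dcl N (H ∪ C) := by
      intro x hx y hy
      exact hX1 (fun _ v => app (v 0) (v 1)) (Tm.app (Tm.var 0) (Tm.var 1)) (cons x fun _ => y)
        (In.cons (M := (· ∈ Dcl N (H ∪ C))) (fun _ => hy) hx)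
    have hηX : η.toZFSet ∈ Dcl N (H ∪ C) := hfη ▸ happ f (hHX hf) _ (hCX hkC)
    have hCX' : C ∈ Dcl N (H ∪ C) := by
      have h1 := hX1 (fun _ v => LAS ∅ (app (gaP (v 0)) (v 1)))
        (Tm.LAS Tm.empty (Tm.app (tm_gaP (Tm.var 0)) (Tm.var 1))) (cons a fun _ => k.toZFSet)
        (In.cons (M := (· ∈ Dcl N (H ∪ C))) (fun _ => hCX hkC) (hHX haH))
      simp only [cons_zero, cons_succ] at h1
      rwa [hgaA, LAS_ord, hC] at h1
    have hηN : η.toZFSet ∈ N := hXel.1 hηX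
    have hξη' : ξ.toZFSet ∈ η.toZFSet := Ordinal.toZFSet_mem_toZFSet_iff.2 hξη
    rcases hD.sz.sm k hk η hη with h | ⟨g, hg, hgo⟩
    · rw [h] at hξη'
      exact absurd hξη' (ZFSet.notMem_empty _)
    · rw [hC] at hgo
      have hpN : ZFSet.prod C η.toZFSet ∈ N :=
        (Tm.prod (Tm.var 0) (Tm.var 1)).1 (· ∈ N) zN (cons C fun _ => η.toZFSet)
          (In.cons (M := (· ∈ N)) (fun _ => hηN) hCN)
      have hgN : g ∈ N := by
        rw [← hN] at hpN ⊢
        exact hD.grd.subχ _ hpN g hg hgo.1.1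
      obtain ⟨ψ, hψ⟩ : Dfb ZFm (fun _ v => Onto (v 0) (v 1) (v 2)) :=
        Dfb.onto (Tm.var 0) (Tm.var 1) (Tm.var 2)
      have hwX : ∀ j, cons C (fun _ => η.toZFSet) j ∈ Dcl N (H ∪ C) :=
        In.cons (M := (· ∈ Dcl N (H ∪ C))) (fun _ => hηX) hCX'
      have h1 : Sat (· ∈ N) (.ex ψ) (cons C fun _ => η.toZFSet) :=
        ⟨g, hgN, (hψ (· ∈ N) zN _ (In.cons (fun j => hXel.1 (hwX j)) hgN)).2 hgo⟩
      obtain ⟨g', hg'X, hg'⟩ := (hXel.2 (.ex ψ) _ hwX).2 h1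
      have h2 : Sat (· ∈ N) ψ (cons g' (cons C fun _ => η.toZFSet)) :=
        (hXel.2 ψ _ (In.cons (M := (· ∈ Dcl N (H ∪ C))) hwX hg'X)).1 hg'
      have h3 : Onto g' C η.toZFSet :=
        (hψ (· ∈ N) zN _ (In.cons (fun j => hXel.1 (hwX j)) (hXel.1 hg'X))).1 h2
      obtain ⟨c, hc, hp⟩ := h3.2 _ hξη'
      rw [← app_eq (svl_of_isFunc h3.1) hp]
      exact happ g' hg'X c (hCX hc)

end CAA
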